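import Pool.Agent.Lib.MP_bc6037_nt.FO.Cor

set_option autoImplicit false

/-!
# Piltz divisor problem: all exponents are determined, to first order, by the growth of zeta

Notation: `L = lindelofAbscissa`, `A k = growthPoint k` is the infimum of the `σ > 0` with
`ζ(σ+it)^k = O(|t|)` (the point where the Lindelof function `μ` takes the value `1/k`),
`g k = meanExp |Delta k|`, `rho s = min(1, 4(1-s)/(3-2s))`.

(1) `A k ≤ g k = g⁺ k = g⁻ k ≤ beta k ≤ alpha k`, `beta k ≤ A (2k)`, `beta k < L`, `alpha k ≤ L`,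
    `alpha k < 1`; and `A k`, `g k`, `beta k`, `alpha k` tend to `L`.
(2) for `A k ≤ s ≤ L`, `s < 1`:
    `alpha j ≤ 1 - (1-s) / max(1, (j/k)(L-s)/(L-A k) + rho s)`.
(3) `1/(1 - alpha k) ≤ 1/(1 - A k) + 4` and
    `min(1, (k/j)(2 A k - 1)/(3 - 2 A k)) (L - A k) ≤ L - alpha j`.
(4) `alpha k - beta k ≤ 2(1 - beta k)(L - beta k)/(1 + 2(L - beta k))`; more generally
    `(2L-1)(L - beta k) ≤ (j/k + 2(L - beta k))(L - alpha j)` if `j ≥ (2 beta k - 1) k`, and
    `alpha j ≤ beta k` if `j ≤ (2 beta k - 1) k`.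
(5) if `L > 1/2` then `alpha j < L` for every `j ≥ 1`.

Everything is unconditional.
-/

open Filter Topology

namespace Pool.Agent.Results.MP_bc6037_nt.FirstOrder

open Pool.Agent.Lib.MP_bc6037_nt Pool.Agent.Lib.MP_bc6037_nt.Limit
  Pool.Agent.Lib.MP_bc6037_nt.FO

theorem result :
    (∀ k : ℕ, Tendsto (fun x : ℝ => Delta k x / x) atTop (𝓝 0)) ∧
    (∀ k : ℕ, 1 ≤ k →
      0 ≤ growthPoint k ∧
      growthPoint k ≤ meanExp (fun y => |Delta k y|) ∧
      meanExp (fun y => max (Delta k y) 0) = meanExp (fun y => |Delta k y|) ∧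
      meanExp (fun y => max (-Delta k y) 0) = meanExp (fun y => |Delta k y|) ∧
      meanExp (fun y => |Delta k y|) ≤ beta k ∧
      beta k ≤ alpha k ∧
      beta k ≤ growthPoint (2 * k) ∧
      beta k < lindelofAbscissa ∧
      alpha k ≤ lindelofAbscissa ∧
      alpha k < 1) ∧
    (Tendsto growthPoint atTop (𝓝 lindelofAbscissa) ∧
      Tendsto (fun k : ℕ => meanExp (fun y => |Delta k y|)) atTop (𝓝 lindelofAbscissa) ∧
      Tendsto beta atTop (𝓝 lindelofAbscissa) ∧
      Tendsto alpha atTop (𝓝 lindelofAbscissa)) ∧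
    (∀ j k : ℕ, 1 ≤ k → ∀ s : ℝ, growthPoint k ≤ s → s ≤ lindelofAbscissa → s < 1 →
      alpha j ≤ 1 - (1 - s) / max 1 ((j / k : ℝ) * ((lindelofAbscissa - s) /
        (lindelofAbscissa - growthPoint k)) + min 1 (4 * (1 - s) / (3 - 2 * s)))) ∧
    (∀ k : ℕ, 1 ≤ k → 1 / (1 - alpha k) ≤ 1 / (1 - growthPoint k) + 4) ∧
    (∀ j k : ℕ, 1 ≤ j → 1 ≤ k →
      min 1 ((k / j : ℝ) * ((2 * growthPoint k - 1) / (3 - 2 * growthPoint k))) *
        (lindelofAbscissa - growthPoint k) ≤ lindelofAbscissa - alpha j) ∧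
    (∀ k : ℕ, 1 ≤ k →
      alpha k - beta k ≤ 2 * (1 - beta k) * (lindelofAbscissa - beta k) /
        (1 + 2 * (lindelofAbscissa - beta k))) ∧
    (∀ j k : ℕ, 1 ≤ j → 1 ≤ k → (2 * beta k - 1) * k ≤ j →
      (2 * lindelofAbscissa - 1) * (lindelofAbscissa - beta k) ≤
        (j / k + 2 * (lindelofAbscissa - beta k)) * (lindelofAbscissa - alpha j)) ∧
    (∀ j k : ℕ, 1 ≤ k → (j : ℝ) ≤ (2 * beta k - 1) * k → alpha j ≤ beta k) ∧
    (1 / 2 < lindelofAbscissa → ∀ j : ℕ, 1 ≤ j → alpha j < lindelofAbscissa) := by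
  refine ⟨fun k => Exponents.mainPoly_spec k, fun k hk => ⟨growthPoint_nonneg k,
    growthPoint_le_meanExp k, ?_, ?_, meanExp_le_beta k, beta_le_alpha k, beta_le_growthPoint hk,
    beta_lt_lindelof hk, alpha_le_lindelof k, alpha_lt_one k⟩, ⟨tendsto_growthPoint, ?_, ?_, ?_⟩,
    fun j k hk s h1 h2 h3 => masterA hk h1 h2 h3, fun k hk => cor_inv hk,
    fun j k hj hk => cor_growth hj hk, ?_, fun j k hj hk h => cor_beta hj hk h,
    fun j k hk h => cor_beta_small hk h, fun h j hj => cor_strict hj h⟩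
  · simpa using meanExp_one_sided k (τ := 1) (Or.inl rfl)
  · simpa using meanExp_one_sided k (τ := -1) (Or.inr rfl)
  · exact tendsto_of_squeeze (fun k => le_rfl)
      (fun k => (meanExp_le_beta k).trans (beta_le_alpha k))
  · exact tendsto_of_squeeze meanExp_le_beta beta_le_alpha
  · exact tendsto_of_squeeze (fun k => (meanExp_le_beta k).trans (beta_le_alpha k))
      (fun k => le_rfl)
  · intro k hk
    have h1 := beta_lt_lindelof hk
    have h2 : beta k < 1 := (beta_le_alpha k).trans_lt (alpha_lt_one k)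
    have hk0 : (0 : ℝ) < k := by exact_mod_cast hk
    have h3 := cor_beta hk hk (by nlinarith)
    rw [div_self hk0.ne'] at h3
    rw [le_div_iff₀ (by linarith)]
    nlinarith

end Pool.Agent.Results.MP_bc6037_nt.FirstOrder
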