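import Pool.Agent.Lib.MP_bc6037_nt.CritMain
import Pool.Agent.Lib.MP_bc6037_nt.Exponents

set_option autoImplicit false

/-!
# Piltz divisor problem: the conjectural limit law is a lower bound in convex order

For every `k ≥ 2` and every convex `φ ≥ 0`, the mean of `φ(x^(-(k-1)/(2k)) Δ_k(x))` over every
interval `[X, X + h]` with `C X^(1-1/k) ≤ h ≤ X` and `X` large is at least `c`, for every `c` below
the expectation of `φ` under (any finite section of) the conjectural limit law of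
`x^(-(k-1)/(2k)) Δ_k(x)`.
-/

open Filter Topology MeasureTheory

namespace Pool.Agent.Results.MP_bc6037_nt.LimitLawConvexOrder

open Pool.Agent.Lib.MP_bc6037_nt

/-- The component of the limit law that belongs to `q`: the random series
`(π √k)⁻¹ ∑_{a ≥ 1} d_k(a^k q) (a^k q)^(-(k+1)/(2k)) cos (2 π a u + π (k-3)/4)`
in the uniform variable `u` (the sum over `a` is written with `a + 1`, `a ≥ 0`). -/
noncomputable def component (k q : ℕ) (u : ℝ) : ℝ :=
  ∑' a : ℕ, (((ArithmeticFunction.zeta ^ k : ArithmeticFunction ℕ) ((a + 1) ^ k * q) : ℕ) : ℝ) /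
    (Real.pi * √k * (((a + 1) ^ k * q : ℕ) : ℝ) ^ (((k : ℝ) + 1) / (2 * k))) *
    Real.cos (2 * Real.pi * ((a : ℝ) + 1) * u + Real.pi * ((k : ℝ) - 3) / 4)

lemma component_eq (k q : ℕ) (u : ℝ) : component k q u = lawTerm k q u := by
  unfold component lawTerm
  refine tsum_congr fun a => ?_
  rw [amp, dk, Real.rpow_neg (Nat.cast_nonneg _), div_eq_mul_inv, mul_inv]
  ring

theorem result (k : ℕ) (hk : 2 ≤ k) : ∃ P : Polynomial ℝ,
    Tendsto (fun x : ℝ => Err k P x / x) atTop (𝓝 0) ∧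
    ∀ S : Finset ℕ, (∀ q ∈ S, 0 < q ∧ ∀ a : ℕ, 1 < a → ¬ a ^ k ∣ q) →
    ∀ φ : ℝ → ℝ, ConvexOn ℝ Set.univ φ → (∀ y, 0 ≤ φ y) →
    ∀ c : ℝ, c < ∫ u in {u : S → ℝ | ∀ q, u q ∈ Set.Ioc (0 : ℝ) 1},
        φ (∑ q : S, component k q (u q)) →
    ∃ C X₀ : ℝ, ∀ X : ℝ, X₀ ≤ X → ∀ h : ℝ, C * X ^ (1 - 1 / (k : ℝ)) ≤ h → h ≤ X →
      c * h ≤ ∫ x in X..(X + h), φ (Err k P x / x ^ (((k : ℝ) - 1) / (2 * k))) := by
  obtain ⟨Z, hZ, hZ', -⟩ := Exponents.mainPoly_data k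
  refine ⟨mainPoly k, Exponents.mainPoly_spec k, fun S hS φ hφ hφ0 c hc => ?_⟩
  simp only [component_eq] at hc
  exact crit_main hk hZ hZ' (fun q hq => (hS q hq).1) (rootIndep (by omega) hS) hφ hφ0 hc

end Pool.Agent.Results.MP_bc6037_nt.LimitLawConvexOrder
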