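import Pool.Agent.Lib.PR.RH
import Pool.Agent.Lib.PR.RJ
import Pool.Agent.Lib.DL.Hd
import Pool.Agent.Lib.PR.LE
import Pool.Agent.Lib.PR.DR
import Pool.Agent.Lib.TW.FiD5

set_option autoImplicit false

/-!
# Piltz divisor problem: new bounds for the exponents `alpha k` (`k ≥ 18`) and `beta k` (`k ≥ 7`)

`alpha k ≤ 1 - m/k` for `k ≥ 18` and every `m` that is at most `(k+26)/11` and
`(4q²-5q+3)/(2(2q-1)) + (k-4)(4q-3)/(2q²(2q-1))` for all `q ≥ 4`; `beta k ≤ 1 - m/k` for `k ≥ 7` and every `m` that is at most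
`(k+18)/8`, `2(k+26)/21`, `(k+28)/11` and `(4q²-5q+3)/(2(2q-1)) + (k-2)(4q-3)/(2q²(2q-1))` for all `q ≥ 4`.  Closed forms follow.
-/

open Filter Topology

namespace Pool.Agent.Results.MP_bc6037_nt.PiltzRecords

open Pool.Agent.Lib.MP_bc6037_nt

theorem result :
    (∀ k : ℕ, Tendsto (fun x : ℝ => Delta k x / x) atTop (𝓝 0)) ∧
    (∀ k : ℕ, 18 ≤ k → ∀ m : ℝ, m ≤ ((k : ℝ) + 26) / 11 →
      (∀ q : ℕ, 4 ≤ q → m ≤ (4 * (q : ℝ) ^ 2 - 5 * q + 3) / (2 * (2 * q - 1)) +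
        ((k : ℝ) - 4) * (4 * q - 3) / (2 * (q : ℝ) ^ 2 * (2 * q - 1))) →
      alpha k ≤ 1 - m / k ∧
      ∀ a : ℝ, 1 - m / k < a → ∃ C : ℝ, ∀ x : ℝ, 1 ≤ x → |Delta k x| ≤ C * x ^ a) ∧
    (∀ k : ℕ, 7 ≤ k → ∀ m : ℝ, m ≤ ((k : ℝ) + 18) / 8 → m ≤ 2 * ((k : ℝ) + 26) / 21 → m ≤ ((k : ℝ) + 28) / 11 →
      (∀ q : ℕ, 4 ≤ q → m ≤ (4 * (q : ℝ) ^ 2 - 5 * q + 3) / (2 * (2 * q - 1)) +
        ((k : ℝ) - 2) * (4 * q - 3) / (2 * (q : ℝ) ^ 2 * (2 * q - 1))) →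
      beta k ≤ 1 - m / k ∧
      ∀ b : ℝ, 1 - m / k < b → ∃ C : ℝ, ∀ x : ℝ, 1 ≤ x →
        ∫ y in (1 : ℝ)..x, (Delta k y) ^ 2 ≤ C * x ^ (1 + 2 * b)) ∧
    (∀ k : ℕ, 18 ≤ k →
      alpha k ≤ 1 - 1.52 * (k : ℝ) ^ (-(2 / 3) : ℝ) ∧
      alpha k ≤ 1 - (3 / 2 * (2 * (k : ℝ)) ^ (1 / 3 : ℝ) - 7 / 8 - 2 / 3 / (2 * (k : ℝ)) ^ (1 / 3 : ℝ)) / k) ∧
    (∀ k : ℕ, 7 ≤ k →
      beta k ≤ 1 - 1.57 * (k : ℝ) ^ (-(2 / 3) : ℝ) ∧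
      beta k ≤ 1 - (3 / 2 * (2 * (k : ℝ)) ^ (1 / 3 : ℝ) - 7 / 8 - 1 / 5 / (2 * (k : ℝ)) ^ (1 / 3 : ℝ)) / k) := by
  have hpow : ∀ k : ℕ, 7 ≤ k → ∀ c : ℝ, c * (k : ℝ) ^ (1 / 3 : ℝ) / k = c * (k : ℝ) ^ (-(2 / 3) : ℝ) := by
    intro k hk c
    have hk0 : (0 : ℝ) < k := by exact_mod_cast (by omega : 0 < k)
    have h1 : (k : ℝ) ^ (-(2 / 3) : ℝ) = (k : ℝ) ^ (1 / 3 : ℝ) / k := by
      have h2 : (-(2 / 3) : ℝ) = 1 / 3 - 1 := by norm_num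
      rw [h2, Real.rpow_sub hk0, Real.rpow_one]
    rw [h1]
    ring
  have hA : ∀ k : ℕ, 18 ≤ k → ∀ m : ℝ, m ≤ ((k : ℝ) + 26) / 11 →
      (∀ q : ℕ, 4 ≤ q → m ≤ (4 * (q : ℝ) ^ 2 - 5 * q + 3) / (2 * (2 * q - 1)) +
        ((k : ℝ) - 4) * (4 * q - 3) / (2 * (q : ℝ) ^ 2 * (2 * q - 1))) → alpha k ≤ 1 - m / k := fun k hk m h1 h2 =>
    Pool.Agent.Lib.PR.alphaAllD k hk ⟨h1, h2⟩ Pool.Agent.Lib.PR.hbb Pool.Agent.Lib.PR.hjb Pool.Agent.Lib.DL.hdb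
  have hB : ∀ k : ℕ, 7 ≤ k → ∀ m : ℝ, m ≤ ((k : ℝ) + 18) / 8 → m ≤ 2 * ((k : ℝ) + 26) / 21 → m ≤ ((k : ℝ) + 28) / 11 →
      (∀ q : ℕ, 4 ≤ q → m ≤ (4 * (q : ℝ) ^ 2 - 5 * q + 3) / (2 * (2 * q - 1)) +
        ((k : ℝ) - 2) * (4 * q - 3) / (2 * (q : ℝ) ^ 2 * (2 * q - 1))) → beta k ≤ 1 - m / k := fun k hk m h0 h1 h2 h3 =>
    Pool.Agent.Lib.TW.betaAllD5 k hk h0 h1 ⟨h2, h3⟩ Pool.Agent.Lib.PR.hbb Pool.Agent.Lib.PR.hjb Pool.Agent.Lib.DL.hdb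
  refine ⟨fun k => Exponents.mainPoly_spec k, fun k hk m h1 h2 => ?_, fun k hk m h0 h1 h2 h3 => ?_, fun k hk => ⟨?_, ?_⟩,
    fun k hk => ⟨?_, ?_⟩⟩
  · have h5 := hA k hk m h1 h2
    refine ⟨h5, fun a ha => ?_⟩
    obtain ⟨a0, _, h6⟩ := Limit.alpha_set_nonempty k
    obtain ⟨a1, ⟨C, hC⟩, h7⟩ := exists_lt_of_csInf_lt ⟨a0, h6⟩ (h5.trans_lt ha)
    have hC0 : 0 ≤ C := by
      have h8 := hC 1 le_rfl
      rw [Real.one_rpow, mul_one] at h8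
      exact (abs_nonneg _).trans h8
    exact ⟨C, fun x hx => (hC x hx).trans
      (mul_le_mul_of_nonneg_left (Real.rpow_le_rpow_of_exponent_le hx h7.le) hC0)⟩
  · have h5 := hB k hk m h0 h1 h2 h3
    refine ⟨h5, fun b hb => ?_⟩
    obtain ⟨b1, ⟨C, hC⟩, h7⟩ := exists_lt_of_csInf_lt (Limit.beta_set_nonempty k) (h5.trans_lt hb)
    have hC0 : 0 ≤ C := by
      have h8 := hC 1 le_rfl
      rwa [intervalIntegral.integral_same, Real.one_rpow, mul_one] at h8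
    exact ⟨C, fun x hx => (hC x hx).trans
      (mul_le_mul_of_nonneg_left (Real.rpow_le_rpow_of_exponent_le hx (by linarith)) hC0)⟩
  · have h := Pool.Agent.Lib.PR.alpha_le_rec hk (Pool.Agent.Lib.PR.rec152 k (by exact_mod_cast hk))
    rwa [hpow k (by omega)] at h
  · have h := Pool.Agent.Lib.PR.le_closedA k (by exact_mod_cast hk)
    exact hA k hk _ h.1 h.2
  · have h := Pool.Agent.Lib.PR.le_closed157 k (by exact_mod_cast hk)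
    have h1 := hB k hk _ h.1 h.2.1 h.2.2.2.1 h.2.2.2.2
    rwa [hpow k hk] at h1
  · have h := Pool.Agent.Lib.PR.le_closedB k (by exact_mod_cast hk)
    exact hB k hk _ h.1 h.2.1 h.2.2.2.1 h.2.2.2.2

end Pool.Agent.Results.MP_bc6037_nt.PiltzRecords
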