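import Pool.Agent.Lib.PR.RJ
import Pool.Agent.Lib.DL.Hd
import Pool.Agent.Lib.PR.MU3
import Pool.Agent.Lib.PR.MU4

set_option autoImplicit false

/-!
# New estimates for zeta sums, and the growth of zeta

`S = ∑_{N < n ≤ M} n^(-it)`, `1 ≤ N ≤ M ≤ 2N`.  (1) Order `k ≥ 3`: if `t^(1/k) ≤ N ≤ t^(3/(2(k+1)))` then
`|S| ≤ C t^(1/(k²(k+1))) N^(1 - 2/(k(k+1)) + ε)`.  (2) Order `q ≥ 4`: if `t ≥ N^(q-1)` then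
`|S| ≤ C N^(1+ε) ((t/N^q)^((4q-3)/(3q²(q-1))) + N^(-1/(q(q-1))))`.  (3) The growth of zeta that follows: uniformly in the right half of the
critical strip, and near the line 1.
-/

namespace Pool.Agent.Results.MP_bc6037_nt.ZetaSumEstimate

theorem result :
    (∀ k : ℕ, 3 ≤ k → ∀ ε : ℝ, 0 < ε → ∃ C : ℝ, ∀ N M : ℕ, 1 ≤ N → N ≤ M → M ≤ 2 * N → ∀ t : ℝ,
      (N : ℝ) ^ (2 * (k + 1)) ≤ t ^ 3 → t ≤ (N : ℝ) ^ k →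
      ‖∑ n ∈ Finset.Ioc N M, (n : ℂ) ^ (-((t : ℂ) * Complex.I))‖ ≤
        C * t ^ (1 / ((k : ℝ) ^ 2 * (k + 1))) * (N : ℝ) ^ (1 - 2 / ((k : ℝ) * (k + 1)) + ε)) ∧
    (∀ q : ℕ, 4 ≤ q → ∀ ε : ℝ, 0 < ε → ∃ C : ℝ, ∀ N M : ℕ, 1 ≤ N → N ≤ M → M ≤ 2 * N → ∀ t : ℝ,
      (N : ℝ) ^ (q - 1) ≤ t →
      ‖∑ n ∈ Finset.Ioc N M, (n : ℂ) ^ (-((t : ℂ) * Complex.I))‖ ≤ C * (N : ℝ) ^ (1 + ε) *
        ((t / (N : ℝ) ^ q) ^ ((4 * (q : ℝ) - 3) / (3 * (q : ℝ) ^ 2 * (q - 1))) +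
          (N : ℝ) ^ (-(1 / ((q : ℝ) * (q - 1)))))) ∧
    (∀ σ : ℝ, 1 / 2 ≤ σ → σ < 1 → ∀ ε : ℝ, 0 < ε → ∃ C : ℝ, ∀ t : ℝ, 1 ≤ |t| →
      ‖riemannZeta (σ + t * Complex.I)‖ ≤ C * |t| ^ (16 * √6 / 81 * (1 - σ) ^ (3 / 2 : ℝ) + ε)) ∧
    (∀ σ : ℝ, 9 / 10 ≤ σ → σ < 1 → ∀ ε : ℝ, 0 < ε → ∃ C : ℝ, ∀ t : ℝ, 1 ≤ |t| →
      ‖riemannZeta (σ + t * Complex.I)‖ ≤ C * |t| ^ (28 * √10 / 195 * (1 - σ) ^ (3 / 2 : ℝ) + ε)) := by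
  refine ⟨fun k hk ε hε => ?_, fun q hq ε hε => ?_, fun σ h0 h1 ε hε => ?_, fun σ h0 h1 ε hε => ?_⟩
  · obtain ⟨C, _, hC⟩ := Pool.Agent.Lib.DL.hdb k hk ε hε
    refine ⟨C, fun N M h1 h2 h3 t h4 h5 => (hC N M h1 h2 h3 t h5 h4).trans_eq ?_⟩
    have hN1 : (1 : ℝ) ≤ N := by exact_mod_cast h1
    have hN0 : (0 : ℝ) < N := by linarith
    have hk0 : (0 : ℝ) < k := by exact_mod_cast (by omega : 0 < k)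
    have ht0 : 0 < t := by
      by_contra hcon
      push Not at hcon
      have h6 : (1 : ℝ) ≤ (N : ℝ) ^ (2 * (k + 1)) := one_le_pow₀ hN1
      have h7 : t ^ 3 ≤ 0 := by
        have h8 : 0 ≤ (-t) ^ 3 := pow_nonneg (by linarith) 3
        have h9 : (-t) ^ 3 = -(t ^ 3) := by ring
        linarith
      linarith
    rw [Real.mul_rpow (by positivity) (by positivity), ← Real.rpow_natCast, ← Real.rpow_mul hN0.le, ← Real.rpow_mul ht0.le]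
    have e1 : -(1 / (k : ℝ)) * -(1 / ((k : ℝ) * (k + 1))) = 1 / ((k : ℝ) ^ 2 * (k + 1)) := by
      field_simp
    have e2 : (N : ℝ) ^ (1 - 2 / ((k : ℝ) * (k + 1)) + ε) =
        (N : ℝ) ^ (1 + ε) * (N : ℝ) ^ (((2 : ℕ) : ℝ) * -(1 / ((k : ℝ) * (k + 1)))) := by
      rw [← Real.rpow_add hN0]
      congr 1
      push_cast
      ring
    rw [e1, e2]
    ring
  · obtain ⟨C, _, hC⟩ := Pool.Agent.Lib.PR.hjb q hq ε hε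
    refine ⟨C, fun N M h1 h2 h3 t h4 => (hC N M h1 h2 h3 t h4).trans_eq ?_⟩
    have h5 : (4 * (q : ℝ) - 3) / (3 * q) / (q * (q - 1)) = (4 * (q : ℝ) - 3) / (3 * (q : ℝ) ^ 2 * (q - 1)) := by
      rw [div_div]
      congr 1
      ring
    rw [h5]
  · obtain ⟨C, _, hC⟩ := Pool.Agent.Lib.PR.zeta_growth4 Pool.Agent.Lib.PR.hbb Pool.Agent.Lib.PR.hjb Pool.Agent.Lib.DL.hdb h0 h1 hε
    exact ⟨C, hC⟩
  · obtain ⟨C, _, hC⟩ := Pool.Agent.Lib.PR.zeta_growth3 Pool.Agent.Lib.PR.hbb Pool.Agent.Lib.PR.hjb Pool.Agent.Lib.DL.hdb h0 h1 hε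
    exact ⟨C, hC⟩

end Pool.Agent.Results.MP_bc6037_nt.ZetaSumEstimate
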